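import Pool.Agent.Lib.MP_084b88_gt.SK.I55.D
import Pool.Agent.Lib.MP_084b88_gt.SK.AZT

/-! # MP_084b88_gt: certificate I55, the identity -/

set_option autoImplicit false

namespace Pool.Agent.Lib.MP_084b88_gt.SK.I55

open Pool.Agent.Lib.MP_084b88_gt.SK

theorem hck2 : chV2 P q [ev0] (sbE (gV kw ns 12096)) Z [] (tl.map IT.mb ++ ul.flatMap IM.mbs) = true := by decide +kernel

theorem hck : chV P q [ev0] (sbE (gV kw ns 12096)) Z [] (tl.map IT.mb ++ ul.flatMap IM.mbs) = true := chV_of2 hck2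

end Pool.Agent.Lib.MP_084b88_gt.SK.I55
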